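import Pool.Agent.Lib.MP_f171f2_an.OneBlock

/-!
# Bi-Lipschitz maps whose derivative makes no half-turn factor into near-isometries
-/

open Pool.Agent.Lib.MP_f171f2_an

namespace Pool.Agent.Results.MP_f171f2_an.BilipschitzNoHalfTurn

/-- **Bi-Lipschitz maps without half-turns.** For all `L`, `δ > 0` and `ε > 0` there is `m` such
that every `L`-bi-Lipschitz homeomorphism of some `ℝⁿ` whose derivative makes no half-turn is the
composition of an isometry and `m` homeomorphisms that are `(1 + ε)`-bi-Lipschitz. -/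
theorem result (L δ ε : ℝ) (hδ : 0 < δ) (hε : 0 < ε) :
    ∃ m : ℕ, ∀ (n : ℕ) (f : EuclideanSpace ℝ (Fin n) ≃ₜ EuclideanSpace ℝ (Fin n)),
      IsBilipschitz L f → DerivNoHalfTurn δ f →
      ∃ S : EuclideanSpace ℝ (Fin n) ≃ₜ EuclideanSpace ℝ (Fin n), Isometry S ∧
        ∃ l : List (EuclideanSpace ℝ (Fin n) ≃ₜ EuclideanSpace ℝ (Fin n)), l.length = m ∧
          (∀ g ∈ l, IsBilipschitz (1 + ε) g) ∧ f = S * l.prod :=
  one_block L δ ε hδ hε

end Pool.Agent.Results.MP_f171f2_an.BilipschitzNoHalfTurn
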