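import Pool.Agent.Lib.MP_f171f2_an.Final

/-!
# Block triangular quasiconformal maps factor into near-isometries
-/

open Pool.Agent.Lib.MP_f171f2_an

namespace Pool.Agent.Results.MP_f171f2_an.BlockTriangularMaps

/-- **Block triangular quasiconformal maps.** For all `N`, `K`, `δ > 0` and `ε > 0` there is `m`
such that every homeomorphism `f` of some `ℝⁿ` of linear dilatation at most `K` which preserves the
flag of a division of the coordinates into blocks `0, …, N - 1` (two of them non-empty), and whose
derivative makes no half-turn in the blocks with two or more coordinates, is the composition of a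
similarity and `m` homeomorphisms that are `(1 + ε)`-bi-Lipschitz. -/
theorem result (N : ℕ) (K δ ε : ℝ) (hδ : 0 < δ) (hε : 0 < ε) :
    ∃ m : ℕ, ∀ (n : ℕ) (b : Fin n → Fin N), (∃ i j : Fin n, b i ≠ b j) →
      ∀ f : EuclideanSpace ℝ (Fin n) ≃ₜ EuclideanSpace ℝ (Fin n),
        LinearDilatationLE K f → PreservesFlag b f → NoHalfTurn b δ f →
        ∃ S : EuclideanSpace ℝ (Fin n) ≃ₜ EuclideanSpace ℝ (Fin n), IsSimilarity S ∧
          ∃ l : List (EuclideanSpace ℝ (Fin n) ≃ₜ EuclideanSpace ℝ (Fin n)), l.length = m ∧
            (∀ g ∈ l, IsBilipschitz (1 + ε) g) ∧ f = S * l.prod :=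
  final N K δ ε hδ hε

end Pool.Agent.Results.MP_f171f2_an.BlockTriangularMaps
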