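import Pool.Agent.Lib.MP_f171f2_an.SphereFinal

/-!
# Quasiconformal maps that act by similarities on concentric spheres
-/

open Pool.Agent.Lib.MP_f171f2_an

namespace Pool.Agent.Results.MP_f171f2_an.SphereSimilarities

/-- **Radial maps, spirals and shifts of spheres in all dimensions.** For all `K` and `ε > 0` there
is `m` such that for every `n ≥ 2` every homeomorphism `f` of `ℝⁿ` of linear dilatation at most `K`
that multiplies the distances on every sphere centred at the origin by a constant (depending on the
sphere) is the composition of `m` homeomorphisms of linear dilatation at most `1 + ε`. -/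
theorem result (K ε : ℝ) (hε : 0 < ε) :
    ∃ m : ℕ, ∀ n : ℕ, 2 ≤ n →
      ∀ f : EuclideanSpace ℝ (Fin n) ≃ₜ EuclideanSpace ℝ (Fin n),
        LinearDilatationLE K f → ActsBySimilarities f →
        ∃ l : List (EuclideanSpace ℝ (Fin n) ≃ₜ EuclideanSpace ℝ (Fin n)), l.length = m ∧
          (∀ g ∈ l, LinearDilatationLE (1 + ε) g) ∧ f = l.prod :=
  final_spheres K ε hε

end Pool.Agent.Results.MP_f171f2_an.SphereSimilarities
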