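import Pool.Agent.Lib.MP_f171f2_an.Unif

/-!
# If all maps are finite compositions, the number of factors is bounded
-/

open Pool.Agent.Lib.MP_f171f2_an

namespace Pool.Agent.Results.MP_f171f2_an.UniformityIsAutomatic

/-- **The uniform bound is automatic.** Let `F` be any set of homeomorphisms of `ℝⁿ` that is closed
under conjugation by similarities, for example all homeomorphisms of dilatation less than `1 + ε`.
Suppose that every single homeomorphism of `ℝⁿ` of linear dilatation at most `K` that is the
identity outside the unit ball agrees near the origin with a composition of finitely many members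
of `F`. Then there is one number `m` such that every homeomorphism of `ℝⁿ` of linear dilatation at
most `K` and compact support agrees on every ball `‖x‖ ≤ R` with a composition of exactly `m`
members of `F`. -/
theorem result (n : ℕ) (K : ℝ) (hK : 1 ≤ K)
    (F : Set (EuclideanSpace ℝ (Fin n) ≃ₜ EuclideanSpace ℝ (Fin n))) (hF : ConjInvariant F)
    (hfin : ∀ g : EuclideanSpace ℝ (Fin n) ≃ₜ EuclideanSpace ℝ (Fin n),
      LinearDilatationLE K g → (∀ x, 1 ≤ ‖x‖ → g x = x) →
      ∃ (m : ℕ) (δ : ℝ), 0 < δ ∧ FactorsOn F m (Metric.ball 0 δ) g) :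
    ∃ m : ℕ, ∀ g : EuclideanSpace ℝ (Fin n) ≃ₜ EuclideanSpace ℝ (Fin n),
      LinearDilatationLE K g → (∃ R, ∀ x, R ≤ ‖x‖ → g x = x) →
      ∀ R : ℝ, FactorsOn F m (Metric.closedBall 0 R) g :=
  uniformity n K hK F hF hfin

end Pool.Agent.Results.MP_f171f2_an.UniformityIsAutomatic
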